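import Mathlib
import Pool.Agent.H24.QMPrime

set_option autoImplicit false

/-!
The inequality of Q1 up to an additive constant, for all forms of bounded multiplicity.
-/

namespace Pool.Agent.Results.MP_dd8059_ag.AdditiveBound

/-- For a very general germ `y = x Σ c_k x^k` the following holds for all real `t ≥ 1` at once:
if `f` is a nonzero form of degree `d` not divisible by the `(m+1)`-st power of a nonconstant form,
then `v_t(f) ≤ d √t + (1/2 + 1/(8 √t)) m`. -/
theorem result :
    ∃ S : ℕ → MvPolynomial ℕ ℂ, (∀ k, S k ≠ 0) ∧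
      ∀ c : ℕ → ℂ, (∀ k, MvPolynomial.eval c (S k) ≠ 0) →
        ∀ t : ℝ, 1 ≤ t →
          ∀ d m : ℕ, ∀ f : MvPolynomial (Fin 3) ℂ, f.IsHomogeneous d → f ≠ 0 →
            (∀ p : MvPolynomial (Fin 3) ℂ, p ^ (m + 1) ∣ f → IsUnit p) →
            ∃ i j : ℕ,
              PowerSeries.coeff i
                  ((MvPolynomial.aeval
                      (![Polynomial.C PowerSeries.X,
                         Polynomial.C (PowerSeries.X * PowerSeries.mk c) + Polynomial.X,
                         1] : Fin 3 → Polynomial (PowerSeries ℂ)) f).coeff j) ≠ 0 ∧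
              (i : ℝ) + t * (j : ℝ) ≤
                (d : ℝ) * Real.sqrt t + (1 / 2 + 1 / (8 * Real.sqrt t)) * (m : ℝ) :=
  Pool.Agent.H24.QMPrime.additive

end Pool.Agent.Results.MP_dd8059_ag.AdditiveBound
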