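import Mathlib
import Pool.Agent.Lib.QMGlobal

set_option autoImplicit false

/-!
Every `t ≥ 9` is followed closely by a minimal one; the gap is superpolynomially small at infinity.
-/

namespace Pool.Agent.Results.MP_dd8059_ag.AlmostMinimal

open Pool.Agent.QMVal

/-- For every `t ≥ 9` and every `k` there is `s` with
`√t ≤ s ≤ √t (1 + (1/64) ∏_{j<k} (6·2^j/√t))` such that `s²` is minimal (`μ̂(s²) ≤ s`); in
particular `μ̂(t) ≤ s`. -/
theorem result :
    ∀ t : ℝ, 9 ≤ t → ∀ k : ℕ, ∃ s : ℝ,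
      Real.sqrt t ≤ s ∧
      s ≤ Real.sqrt t * (1 + 1 / 64 * ∏ j ∈ Finset.range k, (6 * 2 ^ j / Real.sqrt t)) ∧
      MuHatLe (s ^ 2) s ∧ MuHatLe t s := by
  intro t ht k
  have h1 : 3 ≤ Real.sqrt t := by
    apply Real.le_sqrt_of_sq_le
    norm_num
    exact ht
  obtain ⟨s, hs, hS, _, hle⟩ := approx2 k (Real.sqrt t) h1
  exact ⟨s, hS, hle, hs.2, hs.bound (by linarith) hS⟩

end Pool.Agent.Results.MP_dd8059_ag.AlmostMinimal
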