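import Mathlib
import Pool.Agent.Lib.QMVery

set_option autoImplicit false

/-!
The closure theorem: the moves `√t ↦ a√t + b/√t` do not increase `μ̂(t)/√t`.
-/

namespace Pool.Agent.Results.MP_dd8059_ag.ClosureTheorem

open Pool.Agent.QMVal

/-- For real `t ≥ 1` and integers `a, b ≥ 0` with `w = a t + b ≥ t`:
if `μ̂(t) ≤ μ` then `μ̂(w²/t) ≤ (w/t) μ`. -/
theorem result :
    ∀ t μ : ℝ, 1 ≤ t → MuHatLe t μ → ∀ a b : ℕ, t ≤ a * t + b →
      MuHatLe ((a * t + b) ^ 2 / t) ((a * t + b) / t * μ) :=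
  fun _ _ ht h a b hab => h.closure ht a b hab

end Pool.Agent.Results.MP_dd8059_ag.ClosureTheorem
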