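import Mathlib
import Pool.Agent.DegRange.Main

set_option autoImplicit false

namespace Pool.Agent.Results.MP_dd8059_ag.DegreeRange

/-- For very general germs (one countable union for all `t`, `d`): for every real `t ≥ 9` and every
nonzero form `f` of degree `d ≤ 2 exp((log(t/36))²/23)` the exact inequality `v_t(f) ≤ d √t`. -/
theorem result :
    ∃ S : ℕ → MvPolynomial ℕ ℂ, (∀ k, S k ≠ 0) ∧
      ∀ c : ℕ → ℂ, (∀ k, MvPolynomial.eval c (S k) ≠ 0) →
        ∀ t : ℝ, 9 ≤ t → ∀ d : ℕ, (d : ℝ) ≤ 2 * Real.exp ((Real.log (t / 36)) ^ 2 / 23) →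
          ∀ f : MvPolynomial (Fin 3) ℂ, f.IsHomogeneous d → f ≠ 0 →
            ∃ i j : ℕ,
              PowerSeries.coeff i
                  ((MvPolynomial.aeval
                      (![Polynomial.C PowerSeries.X,
                         Polynomial.C (PowerSeries.X * PowerSeries.mk c) + Polynomial.X,
                         1] : Fin 3 → Polynomial (PowerSeries ℂ)) f).coeff j) ≠ 0 ∧
              (i : ℝ) + t * (j : ℝ) ≤ (d : ℝ) * Real.sqrt t :=
  Pool.Agent.DegRange.main

end Pool.Agent.Results.MP_dd8059_ag.DegreeRange
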